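import Pool.Agent.KS6_59.TS.Fin

/-!
# MP_14d42b_co: the exact range of densities of triangle supersaturation for `K_{3,t}`

`G.copyCount F` is Mathlib's number of subgraphs of `G` isomorphic to `F`. For a function `κ`, `Supersaturated t κ`
says that there is `ε n → 0` such that, for all large `n`, every graph `G` on `n` vertices with `k n ^ 2` triangles,
`k ≥ κ n`, has at least `k ^ t n ^ (3 - ε n)` copies of `K_{3,t}`. Q1 asks whether this holds for constant `κ`.

1. It fails at EVERY density: for every `η > 0` there is `δ > 0` such that for all large `n` and all `K` in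
   `[1, n ^ (1 - η)]` some graph on `n` vertices has between `K n ^ 2` and `144 K n ^ 2` triangles and at most
   `K ^ t n ^ (3 - δ)` copies of `K_{3,t}`. In particular it fails for graphs with `Θ (n ^ 2)` triangles.
2. For `k ≥ C n ^ (1 - 1 / (2 t))` there are at least `c (k / n) ^ t k ^ t n ^ 3` copies.
3. So supersaturation from `κ` on holds if and only if `κ n ≥ n ^ (1 - o(1))`.

Proof of 1. A tensor power of a point-line non-incidence relation, of exponent a small multiple of `log n`, is pulled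
back by a random map to `Fin n`; a random colouring of the edges with `q` colours, `q ^ 3` of the order of the quotient of
the two densities, and a second moment bound for the number of triangles make it sparser.
-/

set_option autoImplicit false
open Filter Topology

namespace Pool.Agent.Results.MP_14d42b_co.DensityRange

/-- Supersaturation from the density `κ` on. -/
def Supersaturated (t : ℕ) (κ : ℕ → ℝ) : Prop :=
  ∃ ε : ℕ → ℝ, Tendsto ε atTop (𝓝 0) ∧ ∀ᶠ n : ℕ in atTop, ∀ (G : SimpleGraph (Fin n)) (k : ℝ), 0 < k →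
    (G.copyCount (⊤ : SimpleGraph (Fin 3)) : ℝ) = k * (n : ℝ) ^ 2 → κ n ≤ k →
      k ^ t * (n : ℝ) ^ (3 - ε n) ≤ G.copyCount (completeBipartiteGraph (Fin 3) (Fin t))

open Pool.Agent.KS6_59.TS in
theorem suff (t : ℕ) (ht : 1 ≤ t) (κ : ℕ → ℝ)
    (h : ∀ η : ℝ, 0 < η → ∀ᶠ n : ℕ in atTop, (n : ℝ) ^ (1 - η) ≤ κ n) : Supersaturated t κ := by
  obtain ⟨c, C, hc, hC, hlow⟩ := lower t ht
  have ht0 : (0 : ℝ) < t := by exact_mod_cast ht
  set η : ℕ → ℝ := fun n => max 0 (1 - Real.log (κ n) / Real.log n) with hη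
  have hη0 : Tendsto η atTop (𝓝 0) := by
    rw [Metric.tendsto_atTop']
    intro e he
    obtain ⟨N, hN⟩ := eventually_atTop.1 ((h (e / 2) (by positivity)).and (eventually_ge_atTop 2))
    refine ⟨N, fun n hn => ?_⟩
    obtain ⟨h1, h2⟩ := hN n hn.le
    have hnR : (2 : ℝ) ≤ n := by exact_mod_cast h2
    have hlog : 0 < Real.log n := Real.log_pos (by linarith)
    have h3 : (1 - e / 2) * Real.log n ≤ Real.log (κ n) := by
      rw [← Real.log_rpow (by linarith)]
      exact Real.log_le_log (by positivity) h1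
    have h4 : 1 - Real.log (κ n) / Real.log n ≤ e / 2 := by
      have : 1 - e / 2 ≤ Real.log (κ n) / Real.log n := by
        rw [le_div_iff₀ hlog]
        exact h3
      linarith
    rw [Real.dist_eq, sub_zero, abs_of_nonneg (le_max_left _ _)]
    exact lt_of_le_of_lt (max_le (by positivity) h4) (by linarith)
  refine ⟨fun n => t * η n - Real.log c / Real.log n, ?_, ?_⟩
  · have h1 : Tendsto (fun n : ℕ => Real.log c / Real.log n) atTop (𝓝 0) :=
      (Real.tendsto_log_atTop.comp tendsto_natCast_atTop_atTop).const_div_atTop _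
    simpa using (hη0.const_mul (t : ℝ)).sub h1
  · filter_upwards [h (1 / (4 * t)) (by positivity), ev_rpow (1 / (4 * t : ℝ)) C (by positivity),
      eventually_ge_atTop 2] with n h1 h2 h3 G k hk hN hκ
    have hnR : (2 : ℝ) ≤ n := by exact_mod_cast h3
    have hn0 : (0 : ℝ) < n := by linarith
    have hlog : 0 < Real.log n := Real.log_pos (by linarith)
    have h4 : C * (n : ℝ) ^ (1 - 1 / (2 * t : ℝ)) ≤ k := by
      refine le_trans ?_ (h1.trans hκ)
      calc C * (n : ℝ) ^ (1 - 1 / (2 * t : ℝ)) ≤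
            (n : ℝ) ^ (1 / (4 * t : ℝ)) * (n : ℝ) ^ (1 - 1 / (2 * t : ℝ)) :=
            mul_le_mul_of_nonneg_right h2 (by positivity)
        _ = (n : ℝ) ^ (1 - 1 / (4 * t : ℝ)) := by
            rw [← Real.rpow_add hn0]
            congr 1
            field_simp
            ring
    refine le_trans ?_ (hlow n G k hN h4)
    have h5 : (n : ℝ) ^ (-η n) ≤ k / n := by
      have hκ0 : 0 < κ n := lt_of_lt_of_le (by positivity) h1
      have h6 : (n : ℝ) ^ (1 - η n) ≤ κ n := by
        calc (n : ℝ) ^ (1 - η n) ≤ (n : ℝ) ^ (Real.log (κ n) / Real.log n) := by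
              apply Real.rpow_le_rpow_of_exponent_le (by linarith)
              have := le_max_right 0 (1 - Real.log (κ n) / Real.log n)
              linarith
          _ = κ n := by
              rw [Real.rpow_def_of_pos hn0, mul_div_cancel₀ _ hlog.ne', Real.exp_log hκ0]
      rw [le_div_iff₀ hn0]
      refine le_trans (le_of_eq ?_) (h6.trans hκ)
      nth_rewrite 2 [← Real.rpow_one (n : ℝ)]
      rw [← Real.rpow_add hn0]
      congr 1
      ring
    have h7 : (n : ℝ) ^ (Real.log c / Real.log n) = c := by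
      rw [Real.rpow_def_of_pos hn0, mul_div_cancel₀ _ hlog.ne', Real.exp_log hc]
    have h8 : (n : ℝ) ^ (3 - (t * η n - Real.log c / Real.log n)) =
        c * ((n : ℝ) ^ (-η n)) ^ t * (n : ℝ) ^ 3 := by
      nth_rewrite 2 [← h7]
      rw [← Real.rpow_natCast, ← Real.rpow_mul hn0.le, ← Real.rpow_natCast (n : ℝ) 3,
        ← Real.rpow_add hn0, ← Real.rpow_add hn0]
      congr 1
      push_cast
      ring
    rw [h8]
    calc k ^ t * (c * ((n : ℝ) ^ (-η n)) ^ t * (n : ℝ) ^ 3) ≤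
          k ^ t * (c * (k / n) ^ t * (n : ℝ) ^ 3) := by
          have : ((n : ℝ) ^ (-η n)) ^ t ≤ (k / n) ^ t := pow_le_pow_left₀ (by positivity) h5 t
          gcongr
      _ = _ := by ring

open Pool.Agent.KS6_59.TS in
theorem nec (t : ℕ) (ht : 1 ≤ t) (κ : ℕ → ℝ) (h : Supersaturated t κ) :
    ∀ η : ℝ, 0 < η → ∀ᶠ n : ℕ in atTop, (n : ℝ) ^ (1 - η) ≤ κ n := by
  obtain ⟨ε, hε, hsat⟩ := h
  intro η hη
  set η' : ℝ := min η 1 with hη'
  have hη0 : 0 < η' := lt_min hη one_pos
  obtain ⟨δ, hδ, hall⟩ := alldens t ht η' hη0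
  filter_upwards [hsat, hall, hε.eventually_lt_const (u := δ) hδ, eventually_ge_atTop 2]
    with n h1 h2 h3 h4
  by_contra hcon
  push Not at hcon
  have hnR : (2 : ℝ) ≤ n := by exact_mod_cast h4
  have hn0 : (0 : ℝ) < n := by linarith
  have h5 : (n : ℝ) ^ (1 - η) ≤ (n : ℝ) ^ (1 - η') :=
    Real.rpow_le_rpow_of_exponent_le (by linarith) (by linarith [min_le_left η 1])
  have h6 : (1 : ℝ) ≤ (n : ℝ) ^ (1 - η') :=
    Real.one_le_rpow (by linarith) (by linarith [min_le_right η 1])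
  set K : ℝ := max 1 (κ n) with hK
  have hK1 : 1 ≤ K := le_max_left _ _
  obtain ⟨G, g1, g2, g3⟩ := h2 K hK1 (max_le h6 (hcon.le.trans h5))
  set k : ℝ := (G.copyCount (⊤ : SimpleGraph (Fin 3)) : ℝ) / (n : ℝ) ^ 2 with hk
  have hkK : K ≤ k := by
    rw [hk, le_div_iff₀ (by positivity)]
    exact g1
  have hk0 : 0 < k := by linarith
  have h7 := h1 G k hk0 (by rw [hk]; field_simp) ((le_max_right _ _).trans hkK)
  have h8 : k ^ t * (n : ℝ) ^ (3 - ε n) ≤ k ^ t * (n : ℝ) ^ (3 - δ) := by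
    refine h7.trans (g3.trans ?_)
    have : K ^ t ≤ k ^ t := pow_le_pow_left₀ (by linarith) hkK t
    gcongr
  have h9 : (n : ℝ) ^ (3 - δ) < (n : ℝ) ^ (3 - ε n) :=
    Real.rpow_lt_rpow_of_exponent_lt (by linarith) (by linarith)
  have h10 : k ^ t * (n : ℝ) ^ (3 - δ) < k ^ t * (n : ℝ) ^ (3 - ε n) :=
    mul_lt_mul_of_pos_left h9 (by positivity)
  linarith

/-- **The exact range of densities of triangle supersaturation for `K_{3,t}`**, all `t ≥ 1` (Q1: `t ≥ 3`).
(1) Failure at every density up to `n ^ (1 - η)`, by a fixed power of `n`, for all large `n`.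
(2) The lower bound for denser graphs.
(3) Supersaturation from `κ` on holds if and only if `κ n ≥ n ^ (1 - η)` eventually, for every `η > 0`.
(4) The answer to Q1: it fails for every constant `k₀`. -/
theorem result (t : ℕ) (ht1 : 1 ≤ t) :
    (∀ η : ℝ, 0 < η → ∃ δ : ℝ, 0 < δ ∧ ∀ᶠ n : ℕ in atTop, ∀ K : ℝ, 1 ≤ K → K ≤ (n : ℝ) ^ (1 - η) →
      ∃ G : SimpleGraph (Fin n), K * (n : ℝ) ^ 2 ≤ G.copyCount (⊤ : SimpleGraph (Fin 3)) ∧
        (G.copyCount (⊤ : SimpleGraph (Fin 3)) : ℝ) ≤ 144 * K * (n : ℝ) ^ 2 ∧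
        (G.copyCount (completeBipartiteGraph (Fin 3) (Fin t)) : ℝ) ≤ K ^ t * (n : ℝ) ^ (3 - δ)) ∧
    (∃ c C : ℝ, 0 < c ∧ 0 < C ∧ ∀ (n : ℕ) (G : SimpleGraph (Fin n)) (k : ℝ),
      (G.copyCount (⊤ : SimpleGraph (Fin 3)) : ℝ) = k * (n : ℝ) ^ 2 →
      C * (n : ℝ) ^ (1 - 1 / (2 * t : ℝ)) ≤ k →
      c * (k / n) ^ t * (k ^ t * (n : ℝ) ^ 3) ≤
        G.copyCount (completeBipartiteGraph (Fin 3) (Fin t))) ∧
    (∀ κ : ℕ → ℝ, Supersaturated t κ ↔
      ∀ η : ℝ, 0 < η → ∀ᶠ n : ℕ in atTop, (n : ℝ) ^ (1 - η) ≤ κ n) ∧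
    (∀ k₀ : ℝ, ¬ Supersaturated t (fun _ => k₀)) := by
  refine ⟨fun η hη => Pool.Agent.KS6_59.TS.alldens t ht1 η hη,
    Pool.Agent.KS6_59.TS.lower t ht1, fun κ => ⟨nec t ht1 κ, suff t ht1 κ⟩, fun k₀ h => ?_⟩
  have h1 := nec t ht1 _ h (1 / 2) (by norm_num)
  have h2 := Pool.Agent.KS6_59.TS.ev_rpow (1 / 2) (k₀ + 1) (by norm_num)
  obtain ⟨n, h3, h4⟩ := (h1.and h2).exists
  norm_num at h3 h4
  linarith

end Pool.Agent.Results.MP_14d42b_co.DensityRange
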